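import Pool.Agent.N582.VLMain

/-!
# Single-vehicle scheduling on a line with release and positive handling times is NP-hard

The reduction starts from the subset sum problem, with positive items `a 0, …, a (n - 1)` and target
`T`. Let `L` be larger than the sum of the items and let `M` be very large. The vehicle starts at the
left end of the line, at position `0`. There are

* `n` big jobs `C j` at position `0` (handling time `M`),
* big jobs `A j` at position `(j + 1) L` for `j ≤ n` (handling time `M`),
* small jobs `O j` at position `(j + 1) L + a j` for `j < n` (handling time `2 a j`).

Their release times are such that, for a bound of the idle time which is smaller than `M`, the big
jobs must be processed in the order `A (n - 1), C (n - 1), …, A 0, C 0, A n`. The last big job at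
home, `C 0`, is released `4 T` time units after its earliest possible starting time. The small job
`O j` is released when the vehicle reaches `A j` in the round for `j`; it can be processed by a
detour of length `2 a j` in this round, or on the way to the last job `A n` at no extra cost; all
other possibilities cost a detour of length at least `2 L`. If `w` is the sum of the items whose
small jobs are processed in their rounds, then the completion time is at least a constant plus
`max (4 T - 2 w) (2 w)`, so that the bound can be met if and only if `w = T` is possible.
-/

set_option autoImplicit false

namespace Pool.Agent.Results.MP_6e49ee_lc.NPHard

open Pool.Agent.NPC Pool.Agent.N582.VL

/-- **Scheduling a single vehicle on a line with release times and positive handling times is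
NP-hard** (in the ordinary, weak sense: the numbers are encoded in binary), and it remains NP-hard
for symmetric travel times and a vehicle which starts at the left end of the line. -/
theorem result : NPHardP Schedulable ∧
    NPHardP (fun I : Inst => (∀ i, I.right i = I.left i) ∧ I.start = 0 ∧ Schedulable I) :=
  ⟨npHard, npHard_sym⟩

end Pool.Agent.Results.MP_6e49ee_lc.NPHard
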